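import Pool.Agent.K3h45.HJ.H15

set_option autoImplicit false

/-!
The joint law of the heights of odd integers along linear forms.

The heights `h(m)` of the odd values of pairwise independent affine linear forms in several integer
variables (for example of the odd terms `u, u + 2 v, u + 4 v, ...` of an arithmetic progression, jointly
in `u` and `v`) are asymptotically independent, also on the points that survive a sieve. The conditions
of the sieve are arbitrary conditions on the variables modulo primes up to a small power of `X`, and the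
variables can be restricted to a residue class to an odd modulus up to a small power of `X`; the error is
small relative to the expected number of the surviving points. In particular every admissible system of
pairwise independent forms has, simultaneously, odd almost prime values whose heights are in given
residue classes and deviate from `2 / log (16 / 9) * log m` by given amounts in units of the standard
deviation.
-/

namespace Pool.Agent.Results.MP_2b866c_nt.HeightsAlongLinearForms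

open Filter Topology

/-- `C(m) = (3m+1)/2^e(m)`, `2^e(m)` the largest power of `2` dividing `3m+1` -/
def C (m : ℕ) : ℕ := (3 * m + 1) / 2 ^ padicValNat 2 (3 * m + 1)

/-- the height `h(m)`, the least `k ≥ 1` with `C^k(m) = 1`, and `⊤ = ∞` if there is none -/
noncomputable def height (m : ℕ) : ℕ∞ := sInf {k : ℕ∞ | ∃ j : ℕ, 1 ≤ j ∧ C^[j] m = 1 ∧ k = j}

/-- among the odd positive integers, those with the property `P` have the natural density `δ` -/
def HasOddDensity (P : ℕ → Prop) (δ : ℝ) : Prop :=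
  Tendsto (fun N : ℕ => 2 / (N : ℝ) * ({m : ℕ | m ≤ N ∧ Odd m ∧ P m}.ncard : ℝ)) atTop (𝓝 δ)

/-- `2 / log (16/9) * log m + x * log 2 * √(2 log m / (log (4/3))^3)` -/
noncomputable def bound (x : ℝ) (m : ℕ) : ℝ :=
  2 / Real.log (16 / 9) * Real.log m
    + x * (Real.log 2 * Real.sqrt (2 * Real.log m / Real.log (4 / 3) ^ 3))

/-- The distribution function of the standard normal law. -/
noncomputable def Phi (x : ℝ) : ℝ :=
  ProbabilityTheory.cdf (ProbabilityTheory.gaussianReal 0 1) x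

/-- The odd positive integers with a finite height which is at most `bound x m` and congruent to `b`
modulo `q`. -/
def Level (q : ℕ) (b : ℤ) (x : ℝ) : Set ℤ :=
  {n : ℤ | 0 < n ∧ n % 2 = 1 ∧ ∃ h : ℕ, height n.toNat = h ∧ (h : ℝ) ≤ bound x n.toNat ∧ (h : ℤ) ≡ b [ZMOD q]}

/-- A sieve problem in `D` variables: the classes in `Ω p` are to be removed for the primes `p ∈ Q`, and
the variables are `ρ` modulo `q`. -/
structure Sieve (D : ℕ) where
  Q : Finset ℕ
  Ω : (p : ℕ) → Set (Fin D → ZMod p)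
  q : ℕ
  ρ : Fin D → ℤ

/-- The elements of `Q` are primes up to `z`, for each of them `Ω p` consists of at most `κ p ^ (D - 1)` of
the `p ^ D` classes, the modulus `q` is odd, at most `z`, and divisible by none of them. -/
def Sieve.Valid {D : ℕ} (w : Sieve D) (κ : ℕ) (z : ℝ) : Prop :=
  (∀ p ∈ w.Q, p.Prime ∧ (p : ℝ) ≤ z ∧ ¬ p ∣ w.q ∧ (w.Ω p).ncard * p ≤ κ * p ^ D) ∧ w.q % 2 = 1 ∧ (w.q : ℝ) ≤ z

/-- The point `v` survives: modulo the primes of `Q` it is not in the sets `Ω p`, and it is `ρ` modulo `q`. -/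
def Sieve.Passes {D : ℕ} (w : Sieve D) (v : Fin D → ℤ) : Prop :=
  (∀ p ∈ w.Q, (fun j => (v j : ZMod p)) ∉ w.Ω p) ∧ ∀ j, (w.q : ℤ) ∣ v j - w.ρ j

/-- The expected density of the surviving points. -/
noncomputable def Sieve.dens {D : ℕ} (w : Sieve D) : ℝ := (∏ p ∈ w.Q, (1 - ((w.Ω p).ncard : ℝ) / (p : ℝ) ^ D)) / (w.q : ℝ) ^ D

/-- The number of the surviving points `v` of the box `∏ (P j, P' j]` such that, for every `i`, the value
`Λ i • v + c i` of the `i`-th form is odd, in `S i` and in the interval `(M i, N i]`. -/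
noncomputable def Points {D r : ℕ} (Λ : Fin r → Fin D → ℤ) (c : Fin r → ℤ) (M N : Fin r → ℕ) (P P' : Fin D → ℤ)
    (w : Sieve D) (S : Fin r → Set ℤ) : ℕ :=
  {v : Fin D → ℤ | (∀ j, P j < v j ∧ v j ≤ P' j) ∧ w.Passes v ∧ ∀ i, (∑ j, Λ i j * v j + c i) ∈ S i ∧
    (∑ j, Λ i j * v j + c i) % 2 = 1 ∧ (M i : ℤ) < ∑ j, Λ i j * v j + c i ∧ ∑ j, Λ i j * v j + c i ≤ N i}.ncard

open Pool.Agent.K3h45.HJ Pool.Agent.W36.GK
open Pool.Agent.W36.GS (pts sgq sg rd VV VV_nonneg)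
open Pool.Agent.H499R2.ND (IsHt Dn cnt Bas Tn)

theorem height_eq {m h : ℕ} (hh : IsHt m h) : height m = h := by
  unfold height
  apply le_antisymm
  · exact sInf_le ⟨h, hh.1, hh.2.1, rfl⟩
  · refine le_sInf ?_
    rintro k ⟨j, hj, hj1, rfl⟩
    have : h ≤ j := by
      by_contra hlt
      exact hh.2.2 j hj (by omega) hj1
    exact_mod_cast this

theorem exists_isHt {m j : ℕ} (hj : 1 ≤ j) (h : C^[j] m = 1) : ∃ h, IsHt m h := by
  classical
  have hex : ∃ k, 1 ≤ k ∧ C^[k] m = 1 := ⟨j, hj, h⟩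
  refine ⟨Nat.find hex, (Nat.find_spec hex).1, (Nat.find_spec hex).2, fun k hk hlt hk1 => ?_⟩
  exact Nat.find_min hex hlt ⟨hk, hk1⟩

theorem height_top {m : ℕ} (hh : ¬ ∃ h, IsHt m h) : height m = ⊤ := by
  unfold height
  have : {k : ℕ∞ | ∃ j : ℕ, 1 ≤ j ∧ C^[j] m = 1 ∧ k = j} = ∅ := by
    rw [Set.eq_empty_iff_forall_notMem]
    rintro k ⟨j, hj, hj1, _⟩
    exact hh (exists_isHt hj hj1)
  rw [this, sInf_empty]

theorem height_lt_top_iff {m : ℕ} : height m ≠ ⊤ ↔ ∃ h, IsHt m h := by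
  constructor
  · intro h
    by_contra hcon
    exact h (height_top hcon)
  · rintro ⟨h, hh⟩
    rw [height_eq hh]
    exact ENat.natCast_ne_top h

theorem height_iff {m h : ℕ} : height m = h ↔ IsHt m h := by
  constructor
  · intro hm
    obtain ⟨h', hh'⟩ := height_lt_top_iff.1 (show height m ≠ ⊤ by rw [hm]; exact ENat.natCast_ne_top h)
    have h1 := height_eq hh'
    rw [hm] at h1
    have h2 : h = h' := by exact_mod_cast h1
    rw [h2]; exact hh'
  · exact height_eq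

theorem odd_density_of {P : ℕ → Prop} {δ : ℝ} (h : Dn (fun m => m % 2 = 1 ∧ P m) (δ / 2)) :
    HasOddDensity P δ := by
  unfold HasOddDensity
  have h1 := h.const_mul 2
  rw [mul_div_cancel₀ δ (by norm_num : (2 : ℝ) ≠ 0)] at h1
  refine h1.congr fun N => ?_
  have e : {m : ℕ | 1 ≤ m ∧ m ≤ N ∧ m % 2 = 1 ∧ P m} = {m : ℕ | m ≤ N ∧ Odd m ∧ P m} := by
    ext m
    constructor
    · rintro ⟨g1, g2, g3, g4⟩
      exact ⟨g2, Nat.odd_iff.2 g3, g4⟩
    · rintro ⟨g2, g3, g4⟩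
      exact ⟨g3.pos, g2, Nat.odd_iff.1 g3, g4⟩
  unfold cnt
  rw [e]
  ring

theorem bound_eq (x : ℝ) (m : ℕ) : bound x m = bd x m := by
  unfold bound bd
  have : Real.log (16 / 9) = 2 * Real.log (4 / 3) := by
    rw [show (16 : ℝ) / 9 = (4 / 3) ^ 2 by norm_num, Real.log_pow]; push_cast; ring
  rw [this]
  have : Real.log (4 / 3) ≠ 0 := (Real.log_pos (by norm_num)).ne'
  congr 2
  field_simp

theorem mem_level {q : ℕ} {b : ℤ} {x : ℝ} {n : ℤ} (h1 : 1 < n) (h2 : n % 2 = 1) : n ∈ Level q b x ↔ n ∈ SX q b x := by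
  obtain ⟨k, rfl⟩ := Int.eq_ofNat_of_zero_le (show 0 ≤ n by omega)
  unfold Level SX EB
  rw [Set.mem_ofPred_eq, Set.mem_ofPred_eq, Int.toNat_natCast]
  have h3 : ∀ h : ℕ, height k = h ↔ OT k h := fun h => by
    rw [height_iff, ht_OT (by omega) (by omega)]
  constructor
  · rintro ⟨a1, -, h, a2, a3, a4⟩
    rw [bound_eq] at a3
    exact ⟨a1, h, a3, (h3 h).1 a2, a4⟩
  · rintro ⟨a1, h, a3, a2, a4⟩
    rw [← bound_eq] at a3
    exact ⟨a1, h2, h, (h3 h).2 a2, a3, a4⟩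

theorem one_notMem (q : ℕ) (b : ℤ) (x y : ℝ) : (1 : ℤ) ∉ SX q b x \ SX q b y := by
  rintro ⟨⟨h1, h2⟩, h3⟩
  apply h3
  refine ⟨h1, ?_⟩
  have e : (1 : ℤ).toNat = 1 := rfl
  rw [e] at h2 ⊢
  rw [bd_one] at h2 ⊢
  exact h2

theorem points_eq {D r : ℕ} (Λ : Fin r → Fin D → ℤ) (c : Fin r → ℤ) (M N : Fin r → ℕ) (P P' : Fin D → ℤ)
    (w : Sieve D) (S S' : Fin r → Set ℤ) (hS : ∀ i, ∀ n : ℤ, (M i : ℤ) < n → n % 2 = 1 → (n ∈ S i ↔ n ∈ S' i)) :
    (Points Λ c M N P P' w S : ℝ) = ∑ x ∈ pts Λ c (fun _ => 1) M N P P' S',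
      sgq w.q (rd w.q w.ρ) (insert 2 w.Q) (addO w.Q w.Ω Λ c) x := by
  classical
  have hcl : ∀ x : Fin D → ℤ, (∀ j, (w.q : ℤ) ∣ x j - w.ρ j) ↔ rd w.q x = rd w.q w.ρ := by
    intro x
    rw [funext_iff]
    apply forall_congr'
    intro j
    unfold rd
    rw [← ZMod.intCast_zmod_eq_zero_iff_dvd, Int.cast_sub, sub_eq_zero]
  have e1 : ∀ x, sgq w.q (rd w.q w.ρ) (insert 2 w.Q) (addO w.Q w.Ω Λ c) x =
      if w.Passes x ∧ ∀ i, (dot (Λ i) x + c i) % 2 = 1 then 1 else 0 := by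
    intro x
    unfold sgq sg
    have h3 := add_passes w.Q w.Ω Λ c x
    have h4 := hcl x
    by_cases h1 : rd w.q x = rd w.q w.ρ
    · by_cases h2 : ∀ p ∈ insert 2 w.Q, rd p x ∉ addO w.Q w.Ω Λ c p
      · rw [if_pos h1, if_pos h2, if_pos ⟨⟨(h3.1 h2).1, h4.2 h1⟩, (h3.1 h2).2⟩]
      · rw [if_pos h1, if_neg h2, if_neg (fun h5 => h2 (h3.2 ⟨h5.1.1, h5.2⟩))]
    · rw [if_neg h1, if_neg (fun h5 => h1 (h4.1 h5.1.2))]
  simp only [e1]
  rw [← Finset.sum_filter, Finset.sum_const, nsmul_eq_mul, mul_one]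
  unfold Points
  have e2 : {x : Fin D → ℤ | (∀ j, P j < x j ∧ x j ≤ P' j) ∧ w.Passes x ∧ ∀ i, (∑ j, Λ i j * x j + c i) ∈ S i ∧
    (∑ j, Λ i j * x j + c i) % 2 = 1 ∧ (M i : ℤ) < ∑ j, Λ i j * x j + c i ∧ ∑ j, Λ i j * x j + c i ≤ N i} =
      ((pts Λ c (fun _ => 1) M N P P' S').filter (fun x => w.Passes x ∧ ∀ i, (dot (Λ i) x + c i) % 2 = 1) : Set (Fin D → ℤ)) := by
    ext x
    rw [Finset.mem_coe, Finset.mem_filter, Pool.Agent.W36.GT.mem_pts]
    simp only [Set.mem_ofPred_eq, one_mul]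
    constructor
    · rintro ⟨a, b, c⟩
      exact ⟨⟨a, fun i => ⟨(hS i _ (c i).2.2.1 (c i).2.1).1 (c i).1, (c i).2.2⟩⟩, b, fun i => (c i).2.1⟩
    · rintro ⟨⟨a, c⟩, b, d⟩
      exact ⟨a, b, fun i => ⟨(hS i _ (c i).2.1 (d i)).2 (c i).1, d i, (c i).2⟩⟩
  rw [e2, Set.ncard_coe_finset]

theorem dens_eq {D : ℕ} (w : Sieve D) : w.dens = VV w.Q w.Ω / (w.q : ℝ) ^ D := rfl

/-- THE JOINT LAW OF THE HEIGHTS. Among the odd positive integers those of finite height have a positive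
natural density `δ`, equal to `1` iff all heights are finite. For every system of linear forms any two of
which are linearly independent, `κ`, `m ≥ 1`, residues `a i`, real numbers `x i` and `ε > 0` there are
`θ > 0` and `X₀` such that for `X ≥ X₀` and every sieve of dimension `κ` with primes and modulus at most
`X ^ θ` the number of the surviving integral points `v` of a box of side at most `X` for which the values
`Λ i • v + c i` are odd, in the intervals `(M i, N i]`, `1 ≤ M i`, `N i ≤ X`, and have finite heights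
congruent to `a i` modulo `m` and at most `bound (x i)` of the value, is `∏ i, δ * Phi (x i) / m` times the
number of the surviving points of the box with odd values in the intervals, up to `ε` times the expected
number of the surviving points of a box of side `X`; uniformly in the constant terms, intervals and boxes.

If moreover no prime divides the product of the forms identically and the forms are all positive at some
point, then for real numbers `y i < x i` there is `A` such that for every odd `q`, every class `ρ` modulo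
`q` at which no form is divisible by the full power of a prime in `q`, and every `X ≥ A q ^ A`, at least
`X ^ D' / (q ^ D' (log X) ^ A)` points of the class (`D'` is the number of variables) have coordinates in
`(-X, X]` and are such that the values of the forms are odd, larger than `1`, at most `X`, have at most `A`
prime factors apart from those of the greatest common divisor with `q`, and have finite heights congruent
to `a i` modulo `m`, larger than `bound (y i)` and at most `bound (x i)` of the value. -/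
theorem result : ∃ δ : ℝ, 0 < δ ∧ δ ≤ 1 ∧ (δ = 1 ↔ ∀ n : ℕ, Odd n → height n ≠ ⊤) ∧
    HasOddDensity (fun n => height n ≠ ⊤) δ ∧
    (∀ (D r κ m : ℕ), 1 ≤ m → ∀ Λ : Fin r → Fin (D + 1) → ℤ, (∀ i, Λ i ≠ 0) →
      (∀ i j, i ≠ j → ∀ a b : ℤ, a • Λ i = b • Λ j → a = 0 ∧ b = 0) →
      ∀ (a : Fin r → ℤ) (x : Fin r → ℝ) (ε : ℝ), 0 < ε → ∃ θ : ℝ, 0 < θ ∧ ∃ X₀ : ℕ, ∀ X : ℕ, X₀ ≤ X →
      ∀ w : Sieve (D + 1), w.Valid κ ((X : ℝ) ^ θ) →
      ∀ c : Fin r → ℤ, ∀ M N : Fin r → ℕ, (∀ i, 1 ≤ M i) → (∀ i, M i ≤ N i) → (∀ i, N i ≤ X) →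
      ∀ P P' : Fin (D + 1) → ℤ, (∀ j, P' j - P j ≤ X) →
        |(Points Λ c M N P P' w (fun i => Level m (a i) (x i)) : ℝ) -
          (∏ i, δ * Phi (x i) / m) * Points Λ c M N P P' w (fun _ => Set.univ)| ≤ ε * w.dens * X ^ (D + 1)) ∧
    (∀ (D r m : ℕ), 1 ≤ m → ∀ Λ : Fin r → Fin (D + 1) → ℤ,
      (∀ i j, i ≠ j → ∀ a b : ℤ, a • Λ i = b • Λ j → a = 0 ∧ b = 0) →
      (∀ p : ℕ, p.Prime → ∃ u : Fin (D + 1) → ℤ, ∀ i, ¬ (p : ℤ) ∣ ∑ j, Λ i j * u j) →
      (∃ u : Fin (D + 1) → ℤ, ∀ i, 0 < ∑ j, Λ i j * u j) →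
      ∀ (a : Fin r → ℤ) (x y : Fin r → ℝ), (∀ i, y i < x i) → ∃ A : ℕ, ∀ q : ℕ, q % 2 = 1 → ∀ ρ : Fin (D + 1) → ℤ,
      (∀ i, ∀ p : ℕ, p.Prime → p ∣ q → ¬ ((p ^ q.factorization p : ℕ) : ℤ) ∣ ∑ j, Λ i j * ρ j) →
      ∀ X : ℕ, A * q ^ A ≤ X → (X : ℝ) ^ (D + 1) ≤ (q : ℝ) ^ (D + 1) * Real.log X ^ A *
        ({v : Fin (D + 1) → ℤ | (∀ j, -(X : ℤ) < v j ∧ v j ≤ X ∧ (q : ℤ) ∣ v j - ρ j) ∧
          ∀ i, (∑ j, Λ i j * v j) ∈ Level m (a i) (x i) \ Level m (a i) (y i) ∧ 1 < ∑ j, Λ i j * v j ∧ ∑ j, Λ i j * v j ≤ X ∧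
            ArithmeticFunction.cardFactors ((∑ j, Λ i j * v j).natAbs / Nat.gcd (∑ j, Λ i j * v j).natAbs q) ≤ A}.ncard : ℝ)) := by
  obtain ⟨δ, h0, h1, h2, h3, h4⟩ := lawE
  refine ⟨δ, h0, h1, ?_, ?_, fun D r κ m hm Λ hΛ0 hΛ a x ε hε => ?_, fun D r m hm Λ hΛ hadm hu a x y hxy => ?_⟩
  · rw [h2]
    have h5 := Pool.Agent.H499R2.ND.bas_all_iff
    rw [show (∀ n : ℕ, 1 ≤ n → ∃ k : ℕ, Tn^[k] n = 1) ↔ ∀ n : ℕ, 1 ≤ n → Bas n from Iff.rfl, h5]
    exact forall_congr' fun m => forall_congr' fun _ => height_lt_top_iff.symm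
  · apply odd_density_of
    have h5 : Dn (fun n => Bas (2 * n)) δ := Pool.Agent.H499R2.LT.Dn_iff (fun n _ => (Pool.Agent.H499R2.ND.Bas_two n).symm) h3
    have h6 := Pool.Agent.H499R2.HL.dn_odd (P := Bas) h3 h5
    exact Pool.Agent.H499R2.LT.Dn_iff (fun n _ => and_congr_right fun hn => by
      rw [height_lt_top_iff]
      exact Pool.Agent.H499R2.ND.ht_iff (Nat.odd_iff.2 hn)) h6
  · obtain ⟨θ, hθ, X0, h5⟩ := jointP (κ := κ) hm h0 h1 (fun a x => h4 m a hm x) hΛ0 hΛ a x hε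
    refine ⟨θ, hθ, X0, fun X hX w hw c M N hM1 hM hN P P' hP => ?_⟩
    have h6 := h5 X hX w.Q (fun p hp => ⟨(hw.1 p hp).1, (hw.1 p hp).2.1⟩) w.Ω (fun p hp => (hw.1 p hp).2.2.2) w.q hw.2.1 hw.2.2
      (fun p hp => (hw.1 p hp).2.2.1) (rd w.q w.ρ) c M N hM hN P P' hP
    rw [points_eq Λ c M N P P' w _ (fun i => SX m (a i) (x i)) (fun i n hn ho => mem_level (by
        have : (1 : ℤ) ≤ M i := by exact_mod_cast hM1 i
        omega) ho), points_eq Λ c M N P P' w _ (fun _ => Set.univ) (fun _ _ _ _ => Iff.rfl), dens_eq]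
    simp only [Pool.Agent.H499R2.ND.phi_cdf] at h6
    exact h6
  · obtain ⟨u, hu⟩ := hu
    obtain ⟨A, hA⟩ := patternsJ hm h0 h1 (fun a x => h4 m a hm x) hΛ hadm hu a hxy (fun i => SX_mono (hxy i).le)
    refine ⟨A, fun q hq ρ hρ X hX => (hA q hq ρ hρ X hX).trans ?_⟩
    have hlog : 0 ≤ Real.log X := Real.log_natCast_nonneg X
    apply mul_le_mul_of_nonneg_left _ (by positivity)
    have hfin : {v : Fin (D + 1) → ℤ | (∀ j, -(X : ℤ) < v j ∧ v j ≤ X ∧ (q : ℤ) ∣ v j - ρ j) ∧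
          ∀ i, (∑ j, Λ i j * v j) ∈ Level m (a i) (x i) \ Level m (a i) (y i) ∧ 1 < ∑ j, Λ i j * v j ∧ ∑ j, Λ i j * v j ≤ X ∧
            ArithmeticFunction.cardFactors ((∑ j, Λ i j * v j).natAbs / Nat.gcd (∑ j, Λ i j * v j).natAbs q) ≤ A}.Finite := by
      apply (Finset.finite_toSet (box (fun _ : Fin (D + 1) => -(X : ℤ)) (fun _ => (X : ℤ)))).subset
      intro v hv
      rw [Finset.mem_coe, mem_box]
      exact fun j => ⟨(hv.1 j).1, (hv.1 j).2.1⟩
    have hsub := Set.ncard_le_ncard (s := {v : Fin (D + 1) → ℤ | (∀ j, -(X : ℤ) < v j ∧ v j ≤ X ∧ (q : ℤ) ∣ v j - ρ j) ∧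
        ∀ i, dot (Λ i) v ∈ SX m (a i) (x i) \ SX m (a i) (y i) ∧ dot (Λ i) v % 2 = 1 ∧ 0 < dot (Λ i) v ∧ dot (Λ i) v ≤ X ∧
          ArithmeticFunction.cardFactors ((dot (Λ i) v).natAbs / Nat.gcd (dot (Λ i) v).natAbs q) ≤ A}) ?_ hfin
    · exact_mod_cast hsub
    · rintro v ⟨b1, b2⟩
      refine ⟨b1, fun i => ?_⟩
      obtain ⟨b3, b4, b5, b6, b7⟩ := b2 i
      have b8 : dot (Λ i) v ≠ 1 := by
        intro hcon
        rw [hcon] at b3
        exact one_notMem _ _ _ _ b3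
      have b9 : 1 < dot (Λ i) v := by omega
      refine ⟨⟨(mem_level b9 b4).2 b3.1, fun h => b3.2 ((mem_level b9 b4).1 h)⟩, b9, b6, b7⟩

end Pool.Agent.Results.MP_2b866c_nt.HeightsAlongLinearForms
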