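import Pool.Agent.K3h65.LP.HgtTr
import Pool.Agent.K3h65.LP.DiscP

/-!
# Heights of odd integers and polynomials modulo one

For odd `n` the height of `n` and the fractional part of `P n`, `P` a real polynomial with a diophantine leading
coefficient and of degree at least two, are independent, with a power saving that is uniform over all functions of
the height. So the law of the heights and the truncated average order of the height hold in the sparse sets
of the odd `n ≤ X` for which the fractional part of `P n` is less than `X ^ (-ν)`.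

Method: a dispersion argument along the fibres of `n ↦ (T^t(n), number of odd terms of the trajectory before
`T^t(n)`)`, which determines the height; the Weyl inequality for the sums with `e(P n)` over the fibres.
-/

set_option autoImplicit false

namespace Pool.Agent.Results.MP_2b866c_nt.HeightsAndPolynomials

open Finset Filter Topology

/-- `C(m) = (3m+1)/2^e(m)`, `2^e(m)` the largest power of `2` dividing `3m+1` -/
def C (m : ℕ) : ℕ := (3 * m + 1) / 2 ^ padicValNat 2 (3 * m + 1)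

/-- the height `h(m)`, the least `k ≥ 1` with `C^k(m) = 1`, and `⊤ = ∞` if there is none -/
noncomputable def height (m : ℕ) : ℕ∞ := sInf {k : ℕ∞ | ∃ j : ℕ, 1 ≤ j ∧ C^[j] m = 1 ∧ k = j}

/-- `min(h(m), L)`, a natural number -/
noncomputable def truncHeight (m L : ℕ) : ℕ := (min (height m) (L : ℕ∞)).toNat

/-- among the odd positive integers, those with the property `P` have the natural density `δ` -/
def HasOddDensity (P : ℕ → Prop) (δ : ℝ) : Prop :=
  Tendsto (fun N : ℕ => 2 / (N : ℝ) * ({m : ℕ | m ≤ N ∧ Odd m ∧ P m}.ncard : ℝ)) atTop (𝓝 δ)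

/-- `2 / log (16/9) * log X + x * log 2 * √(2 log X / (log (4/3))^3)` -/
noncomputable def bound (x : ℝ) (X : ℕ) : ℝ :=
  2 / Real.log (16 / 9) * Real.log X
    + x * (Real.log 2 * Real.sqrt (2 * Real.log X / Real.log (4 / 3) ^ 3))

/-- The distribution function of the standard normal law. -/
noncomputable def Phi (x : ℝ) : ℝ :=
  ProbabilityTheory.cdf (ProbabilityTheory.gaussianReal 0 1) x

/-- `m` has a finite height, which is at most `bound x X` and congruent to `b` modulo `q`. -/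
def Level (q : ℕ) (b : ℤ) (x : ℝ) (X m : ℕ) : Prop :=
  ∃ h : ℕ, height m = h ∧ (h : ℝ) ≤ bound x X ∧ (h : ℤ) ≡ b [ZMOD q]

/-- The odd integers in `[1, X]`. -/
def Odds (X : ℕ) : Finset ℕ := (Icc 1 X).filter (fun n => n % 2 = 1)

/-- `α` is irrational and not a Liouville number: `|l α - a| ≥ c l ^ (-A)` for all integers `a` and `l ≥ 1`. -/
def Diophantine (α : ℝ) : Prop :=
  ∃ A c : ℝ, 0 < c ∧ ∀ l : ℕ, 1 ≤ l → ∀ a : ℤ, c * (l : ℝ) ^ (-A) ≤ |l * α - a|

/-- The real polynomials of degree at most `k` with `k`-th coefficient `α`. -/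
def Lead (k : ℕ) (α : ℝ) (P : Polynomial ℝ) : Prop := P.natDegree ≤ k ∧ P.coeff k = α

open Classical in
/-- The odd `n` in `[1, X]` for which the fractional part of `P n` is in `[u, v)`. -/
noncomputable def Frac (P : Polynomial ℝ) (u v : ℝ) (X : ℕ) : Finset ℕ :=
  (Odds X).filter (fun n : ℕ => u ≤ Int.fract (P.eval (n : ℝ)) ∧ Int.fract (P.eval (n : ℝ)) < v)

/-! ### proofs -/

open Pool.Agent.K3h65.LP

open Classical in
/-- the indicator function of the condition on the fractional part -/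
noncomputable def wt (P : Polynomial ℝ) (u v : ℝ) (n : ℕ) : ℝ :=
  if u ≤ Int.fract (P.eval (n : ℝ)) ∧ Int.fract (P.eval (n : ℝ)) < v then 1 else 0

theorem sum_wt (P : Polynomial ℝ) (u v : ℝ) (X : ℕ) (f : ℕ → ℝ) :
    ∑ n ∈ Frac P u v X, f n = ∑ n ∈ (Icc 1 X).filter (fun n => n % 2 = 1), wt P u v n * f n := by
  classical
  unfold Frac Odds wt
  rw [sum_filter]
  apply sum_congr rfl
  intro n _
  split_ifs <;> simp

theorem dioph_mul {α : ℝ} (hα : Diophantine α) {M : ℕ} (hM : 1 ≤ M) : Diophantine (M * α) := by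
  obtain ⟨A, c, hc, h⟩ := hα
  have hM0 : (0 : ℝ) < M := by exact_mod_cast hM
  refine ⟨A, c * (M : ℝ) ^ (-A), by positivity, fun l hl a => ?_⟩
  have hl0 : (0 : ℝ) < l := by exact_mod_cast hl
  have h1 := h (l * M) (Nat.mul_pos hl hM) a
  push_cast at h1
  rw [Real.mul_rpow hl0.le hM0.le] at h1
  calc c * (M : ℝ) ^ (-A) * (l : ℝ) ^ (-A) = c * ((l : ℝ) ^ (-A) * (M : ℝ) ^ (-A)) := by ring
    _ ≤ |(l : ℝ) * M * α - a| := h1
    _ = _ := by rw [mul_assoc]

theorem otr_poly {k : ℕ} (hk : 2 ≤ k) {α : ℝ} (hα : Diophantine α) : ∃ K c : ℝ, 0 ≤ K ∧ 0 < c ∧ c < 1 ∧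
    ∀ X : ℕ, 1 ≤ X → ∀ P : Polynomial ℝ, Lead k α P → ∀ u v : ℝ, 0 ≤ u → u ≤ v → v ≤ 1 →
      OTr X (wt P u v) (v - u) (K * (X : ℝ) ^ (1 - c)) := by
  classical
  obtain ⟨k, rfl⟩ : ∃ k', k = k' + 1 := ⟨k - 1, by omega⟩
  obtain ⟨C1, c1, hC1, hc1, hc1', H1⟩ := disc adm31 (k := k) (by omega) hα
  obtain ⟨C2, c2, hC2, hc2, hc2', H2⟩ := disc adm31 (k := k) (by omega)
    (show Pool.Agent.Y55.DS.Dioph (((2 ^ (k + 1) : ℕ) : ℝ) * α) from dioph_mul hα Nat.one_le_two_pow)
  refine ⟨C1 + C2, min c1 c2, by positivity, lt_min hc1 hc2, lt_of_le_of_lt (min_le_left _ _) hc1', ?_⟩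
  intro X hX P hP u v hu huv hv
  have hXR : (1 : ℝ) ≤ X := by exact_mod_cast hX
  have hX0 : (0 : ℝ) < X := by linarith
  have h1 : (X : ℝ) ^ (1 - c1) ≤ (X : ℝ) ^ (1 - min c1 c2) :=
    Real.rpow_le_rpow_of_exponent_le hXR (by have := min_le_left c1 c2; linarith)
  have h2 : (X : ℝ) ^ (1 - c2) ≤ (X : ℝ) ^ (1 - min c1 c2) :=
    Real.rpow_le_rpow_of_exponent_le hXR (by have := min_le_right c1 c2; linarith)
  have conv : ∀ (Q : Polynomial ℝ) (N : ℕ) (F : ℤ → ℝ),
      ∑ n ∈ (Icc 1 N).filter (fun n : ℕ => u ≤ Int.fract (Q.eval (n : ℝ)) ∧ Int.fract (Q.eval (n : ℝ)) < v), F (1 * (n : ℤ)) =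
      ∑ n ∈ Icc 1 N, (if u ≤ Int.fract (Q.eval (n : ℝ)) ∧ Int.fract (Q.eval (n : ℝ)) < v then (1 : ℝ) else 0) * F (1 * (n : ℤ)) := by
    intro Q N F
    rw [sum_filter]
    apply sum_congr rfl
    intro n _
    split_ifs <;> simp
  have key := otr_of (X := X) (w := wt P u v) (p := v - u) (E1 := C1 * (X : ℝ) ^ (1 - c1)) (E2 := C2 * (X : ℝ) ^ (1 - c2))
    (fun F hF => by
      have h3 := H1 1 (Or.inl rfl) X hX F hF P hP.1 hP.2 u v hu huv hv
      rw [conv] at h3
      exact h3) (fun F hF => by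
      rcases Nat.eq_zero_or_pos (X / 2) with h0 | h0
      · rw [h0]; simp; positivity
      · have h3 := H2 1 (Or.inl rfl) (X / 2) h0 F hF (P.comp (Polynomial.C 2 * Polynomial.X)) ?_ ?_ u v hu huv hv
        · rw [conv] at h3
          have h4 : (((X / 2 : ℕ)) : ℝ) ^ (1 - c2) ≤ (X : ℝ) ^ (1 - c2) :=
            Real.rpow_le_rpow (Nat.cast_nonneg _) (by exact_mod_cast Nat.div_le_self X 2) (by linarith)
          refine le_trans (le_of_eq ?_) (h3.trans (mul_le_mul_of_nonneg_left h4 hC2))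
          congr 2
          apply sum_congr rfl
          intro n _
          unfold wt
          simp
        · refine Polynomial.natDegree_comp_le.trans ?_
          have : (Polynomial.C (2 : ℝ) * Polynomial.X).natDegree ≤ 1 := by
            refine Polynomial.natDegree_mul_le.trans ?_
            rw [Polynomial.natDegree_C, Polynomial.natDegree_X]
          calc P.natDegree * (Polynomial.C (2 : ℝ) * Polynomial.X).natDegree ≤ (k + 1) * 1 := Nat.mul_le_mul hP.1 this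
            _ = k + 1 := mul_one _
        · rw [Polynomial.comp_C_mul_X_coeff, hP.2]
          push_cast
          ring)
  intro φ hφ
  refine (key φ hφ).trans ?_
  nlinarith

/-- **Heights of odd integers and polynomials modulo one.** Let `δ > 0` be the natural density, among the odd positive
integers, of those of finite height (`δ = 1` iff all heights are finite). Let `k ≥ 2` and let `α` be diophantine.
(1) There are `K` and `c > 0` such that for ALL functions `φ`, bounded by `1`, all real polynomials `P` of degree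
`k` with leading coefficient `α`, all intervals `[u, v)` in `[0, 1]` and all `X ≥ 1`, the sum of `φ (h(n))` over the
odd `n ≤ X` for which the fractional part of `P n` is in the interval is `v - u` times the sum over all odd
`n ≤ X`, up to `K X ^ (1 - c)`.
There is `ν₀ > 0` such that for `0 ≤ ν ≤ ν₀`, uniformly in `P` as `X → ∞`, of the odd `n ≤ X` for which the
fractional part of `P n` is less than `X ^ (-ν)`:
(2) `(δ Phi(x) / q + o(1)) X ^ (1 - ν) / 2` have a finite height which is at most `bound x X` and congruent to `b`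
modulo `q`;
(3) the sum of `min (h(n), ⌊Λ log X⌋)` over these `n` is
`(δ * 2 / log (16/9) + (1 - δ) Λ + o(1)) (X ^ (1 - ν) / 2) log X`, for every `Λ > 2 / log (16/9)`. -/
theorem result : ∃ δ : ℝ, 0 < δ ∧ δ ≤ 1 ∧ (δ = 1 ↔ ∀ m : ℕ, Odd m → height m ≠ ⊤) ∧
    HasOddDensity (fun m => height m ≠ ⊤) δ ∧ ∀ k : ℕ, 2 ≤ k → ∀ α : ℝ, Diophantine α →
    (∃ K c : ℝ, 0 < c ∧ ∀ φ : ℕ∞ → ℝ, (∀ t, |φ t| ≤ 1) → ∀ P : Polynomial ℝ, Lead k α P →
      ∀ u v : ℝ, 0 ≤ u → u ≤ v → v ≤ 1 → ∀ X : ℕ, 1 ≤ X →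
        |∑ n ∈ Frac P u v X, φ (height n) - (v - u) * ∑ n ∈ Odds X, φ (height n)| ≤ K * (X : ℝ) ^ (1 - c)) ∧
    ∃ ν₀ : ℝ, 0 < ν₀ ∧ ∀ ν : ℝ, 0 ≤ ν → ν ≤ ν₀ →
      (∀ (q : ℕ) (b : ℤ) (x : ℝ), 1 ≤ q → ∀ ε : ℝ, 0 < ε → ∃ X₀ : ℕ, ∀ P : Polynomial ℝ, Lead k α P →
        ∀ X : ℕ, X₀ ≤ X → |({n : ℕ | n ∈ Frac P 0 ((X : ℝ) ^ (-ν)) X ∧ Level q b x X n}.ncard : ℝ) -
          δ * Phi x / q * ((X : ℝ) ^ (1 - ν) / 2)| ≤ ε * (X : ℝ) ^ (1 - ν)) ∧
      ∀ Λ : ℝ, 2 / Real.log (16 / 9) < Λ → ∀ ε : ℝ, 0 < ε → ∃ X₀ : ℕ, ∀ P : Polynomial ℝ, Lead k α P →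
        ∀ X : ℕ, X₀ ≤ X → |∑ n ∈ Frac P 0 ((X : ℝ) ^ (-ν)) X, (truncHeight n ⌊Λ * Real.log X⌋₊ : ℝ) -
          (δ * (2 / Real.log (16 / 9)) + (1 - δ) * Λ) * ((X : ℝ) ^ (1 - ν) / 2) * Real.log X| ≤
            ε * (X : ℝ) ^ (1 - ν) * Real.log X := by
  classical
  obtain ⟨δ, hδ, h2, h3, hav⟩ := hgt_all
  refine ⟨δ, hδ.pos, hδ.le, h2, h3, fun k hk α hα => ?_⟩
  obtain ⟨K, c, hK, hc0, hc1, H⟩ := otr_poly hk hα
  refine ⟨⟨K, c, hc0, fun φ hφ P hP u v hu huv hv X hX => ?_⟩, c / 2, by positivity, fun ν hν0 hν1 => ?_⟩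
  · have h4 := H X hX P hP u v hu huv hv φ hφ
    rw [← sum_wt P u v X (fun n => φ (Pool.Agent.Results.MP_2b866c_nt.PiatetskiShapiroHeights.height n))] at h4
    exact h4
  have hT : ∀ (X : ℕ), 1 ≤ X → ∀ P : Polynomial ℝ, Lead k α P →
      OTr X (wt P 0 ((X : ℝ) ^ (-ν))) ((X : ℝ) ^ (-ν)) (K * (X : ℝ) ^ (1 - 2 * (c / 2))) := by
    intro X hX P hP
    have hXR : (1 : ℝ) ≤ X := by exact_mod_cast hX
    have h4 := H X hX P hP 0 ((X : ℝ) ^ (-ν)) le_rfl (by positivity)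
      (Real.rpow_le_one_of_one_le_of_nonpos hXR (by linarith))
    rw [sub_zero] at h4
    rwa [show 1 - 2 * (c / 2) = 1 - c by ring]
  have hpow : ∀ X : ℕ, 1 ≤ X → (X : ℝ) ^ (-ν) * X = (X : ℝ) ^ (1 - ν) := by
    intro X hX
    have hX0 : (0 : ℝ) < X := by exact_mod_cast hX
    rw [sub_eq_neg_add, Real.rpow_add hX0, Real.rpow_one]
  have hle : ∀ X : ℕ, 1 ≤ X → (X : ℝ) ^ (-(c / 2)) ≤ (X : ℝ) ^ (-ν) := by
    intro X hX
    exact Real.rpow_le_rpow_of_exponent_le (by exact_mod_cast hX) (by linarith)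
  refine ⟨fun q b x hq ε hε => ?_, fun Λ hΛ ε hε => ?_⟩
  · obtain ⟨X0, hX0⟩ := otr_law hδ (show 0 < c / 2 by positivity) K hq b x hε
    refine ⟨X0 + 1, fun P hP X hX => ?_⟩
    have h4 := hX0 X (by omega) _ _ (hle X (by omega)) (hT X (by omega) P hP)
    rw [hpow X (by omega)] at h4
    have e1 : ∑ n ∈ (Icc 1 X).filter (fun n => n % 2 = 1), wt P 0 ((X : ℝ) ^ (-ν)) n *
        phL q b (bd x X) (Pool.Agent.Results.MP_2b866c_nt.PiatetskiShapiroHeights.height n) =
        ({n : ℕ | n ∈ Frac P 0 ((X : ℝ) ^ (-ν)) X ∧ Level q b x X n}.ncard : ℝ) := by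
      rw [← sum_wt P 0 ((X : ℝ) ^ (-ν)) X (fun n => phL q b (bd x X)
        (Pool.Agent.Results.MP_2b866c_nt.PiatetskiShapiroHeights.height n))]
      have e2 : {n : ℕ | n ∈ Frac P 0 ((X : ℝ) ^ (-ν)) X ∧ Level q b x X n} =
          (((Frac P 0 ((X : ℝ) ^ (-ν)) X).filter (fun n => Level q b x X n) : Finset ℕ) : Set ℕ) := by
        ext n; simp
      rw [e2, Set.ncard_coe_finset, ← Finset.sum_boole]
      apply sum_congr rfl
      intro n _
      unfold phL Level
      rw [← bound_bd]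
      rfl
    have e3 : Pool.Agent.H499R2.ND.Phi x = Phi x := Pool.Agent.H499R2.ND.phi_cdf x
    rw [e1, e3] at h4
    exact h4
  · have hl : 0 < Real.log (16 / 9) := Real.log_pos (by norm_num)
    obtain ⟨X0, hX0⟩ := otr_avg (lt_trans (by positivity) hΛ) (hav Λ hΛ) (show 0 < c / 2 by positivity) hK hε
    refine ⟨X0 + 1, fun P hP X hX => ?_⟩
    have h4 := hX0 X (by omega) _ _ (hle X (by omega)) (hT X (by omega) P hP)
    rw [hpow X (by omega)] at h4
    rw [← sum_wt P 0 ((X : ℝ) ^ (-ν)) X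
      (fun n => (Pool.Agent.Results.MP_2b866c_nt.TruncatedAverages.truncHeight n ⌊Λ * Real.log X⌋₊ : ℝ))] at h4
    exact h4

end Pool.Agent.Results.MP_2b866c_nt.HeightsAndPolynomials
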