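import Pool.Agent.K3h65.LP.HgtEx

/-!
# Heights of odd integers in power residue classes modulo primes

For odd `n ≤ X` the height of `n` and the value at `n` of a character modulo a prime `p`, where `p` is between `X ^ κ`
and `X ^ (1 - κ)`, are independent, with a power saving that is uniform over all functions of the height, all such
primes and all characters. So the law of the heights and the truncated average order of the height hold in
all classes `χ(n) = ζ` with characters `χ` of order up to a small power of `X`, for example for the odd quadratic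
residues and nonresidues.

Method: a dispersion argument along the fibres of `n ↦ (T^t(n), number of odd terms of the trajectory before
`T^t(n)`)`, which determines the height; the correlations of characters along progressions are Jacobi sums.
-/

set_option autoImplicit false

namespace Pool.Agent.Results.MP_2b866c_nt.HeightsInPowerResidueClasses

open Finset Filter Topology

/-- `C(m) = (3m+1)/2^e(m)`, `2^e(m)` the largest power of `2` dividing `3m+1` -/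
def C (m : ℕ) : ℕ := (3 * m + 1) / 2 ^ padicValNat 2 (3 * m + 1)

/-- the height `h(m)`, the least `k ≥ 1` with `C^k(m) = 1`, and `⊤ = ∞` if there is none -/
noncomputable def height (m : ℕ) : ℕ∞ := sInf {k : ℕ∞ | ∃ j : ℕ, 1 ≤ j ∧ C^[j] m = 1 ∧ k = j}

/-- `min(h(m), L)`, a natural number -/
noncomputable def truncHeight (m L : ℕ) : ℕ := (min (height m) (L : ℕ∞)).toNat

/-- among the odd positive integers, those with the property `P` have the natural density `δ` -/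
def HasOddDensity (P : ℕ → Prop) (δ : ℝ) : Prop :=
  Tendsto (fun N : ℕ => 2 / (N : ℝ) * ({m : ℕ | m ≤ N ∧ Odd m ∧ P m}.ncard : ℝ)) atTop (𝓝 δ)

/-- `2 / log (16/9) * log X + x * log 2 * √(2 log X / (log (4/3))^3)` -/
noncomputable def bound (x : ℝ) (X : ℕ) : ℝ :=
  2 / Real.log (16 / 9) * Real.log X
    + x * (Real.log 2 * Real.sqrt (2 * Real.log X / Real.log (4 / 3) ^ 3))

/-- The distribution function of the standard normal law. -/
noncomputable def Phi (x : ℝ) : ℝ :=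
  ProbabilityTheory.cdf (ProbabilityTheory.gaussianReal 0 1) x

/-- `m` has a finite height, which is at most `bound x X` and congruent to `b` modulo `q`. -/
def Level (q : ℕ) (b : ℤ) (x : ℝ) (X m : ℕ) : Prop :=
  ∃ h : ℕ, height m = h ∧ (h : ℝ) ≤ bound x X ∧ (h : ℤ) ≡ b [ZMOD q]

/-- The odd integers in `[1, X]`. -/
def Odds (X : ℕ) : Finset ℕ := (Icc 1 X).filter (fun n => n % 2 = 1)

open Classical in
/-- The odd `n` in `[1, X]` with `χ(n) = ζ`. -/
noncomputable def Cl (X : ℕ) (p : ℕ) (χ : MulChar (ZMod p) ℂ) (ζ : ℂ) : Finset ℕ :=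
  (Odds X).filter (fun n : ℕ => χ (n : ZMod p) = ζ)

/-! ### proofs -/

open Pool.Agent.K3h65.LP

open Classical in
/-- the indicator function of the class -/
noncomputable def wt (p : ℕ) (χ : MulChar (ZMod p) ℂ) (ζ : ℂ) (n : ℕ) : ℝ := if χ (n : ZMod p) = ζ then 1 else 0

theorem sum_wt (p : ℕ) (χ : MulChar (ZMod p) ℂ) (ζ : ℂ) (X : ℕ) (f : ℕ → ℝ) :
    ∑ n ∈ Cl X p χ ζ, f n = ∑ n ∈ (Icc 1 X).filter (fun n => n % 2 = 1), wt p χ ζ n * f n := by
  classical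
  unfold Cl Odds wt
  rw [sum_filter]
  apply sum_congr rfl
  intro n _
  split_ifs <;> simp

/-- **Heights of odd integers in power residue classes.** Let `δ > 0` be the natural density, among the odd positive
integers, of those of finite height (`δ = 1` iff all heights are finite). Let `0 < κ ≤ 1/2`. There is `η > 0` such
that, uniformly for all primes `p` with `X ^ κ ≤ p ≤ X ^ (1 - κ)`, all characters `χ` modulo `p`, of any order `k`,
and all `ζ` with `ζ ^ k = 1`: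
(1) there is `K` such that for ALL functions `φ`, bounded by `1`, and all `X ≥ 1` the sum of `φ (h(n))` over the odd
`n ≤ X` with `χ(n) = ζ` is `1 / k` times the sum over all odd `n ≤ X`, up to `K X ^ (1 - η)`.
If `k ≤ X ^ (η / 2)` then, as `X → ∞`, of the odd `n ≤ X` with `χ(n) = ζ`:
(2) `(δ Phi(x) / q + o(1)) X / (2 k)` have a finite height which is at most `bound x X` and congruent to `b`
modulo `q`;
(3) the sum of `min (h(n), ⌊Λ log X⌋)` over these `n` is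
`(δ * 2 / log (16/9) + (1 - δ) Λ + o(1)) (X / (2 k)) log X`, for every `Λ > 2 / log (16/9)`. -/
theorem result : ∃ δ : ℝ, 0 < δ ∧ δ ≤ 1 ∧ (δ = 1 ↔ ∀ m : ℕ, Odd m → height m ≠ ⊤) ∧
    HasOddDensity (fun m => height m ≠ ⊤) δ ∧ ∀ κ : ℝ, 0 < κ → κ ≤ 1 / 2 → ∃ η : ℝ, 0 < η ∧
    (∃ K : ℝ, ∀ φ : ℕ∞ → ℝ, (∀ t, |φ t| ≤ 1) → ∀ X : ℕ, 1 ≤ X → ∀ (p : ℕ) [Fact p.Prime],
      (X : ℝ) ^ κ ≤ p → (p : ℝ) ≤ (X : ℝ) ^ (1 - κ) → ∀ (χ : MulChar (ZMod p) ℂ) (ζ : ℂ), ζ ^ orderOf χ = 1 →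
        |∑ n ∈ Cl X p χ ζ, φ (height n) - 1 / (orderOf χ : ℝ) * ∑ n ∈ Odds X, φ (height n)| ≤
          K * (X : ℝ) ^ (1 - η)) ∧
    (∀ (q : ℕ) (b : ℤ) (x : ℝ), 1 ≤ q → ∀ ε : ℝ, 0 < ε → ∃ X₀ : ℕ, ∀ X : ℕ, X₀ ≤ X → ∀ (p : ℕ) [Fact p.Prime],
      (X : ℝ) ^ κ ≤ p → (p : ℝ) ≤ (X : ℝ) ^ (1 - κ) → ∀ (χ : MulChar (ZMod p) ℂ) (ζ : ℂ), ζ ^ orderOf χ = 1 →
        (orderOf χ : ℝ) ≤ (X : ℝ) ^ (η / 2) →
          |({n : ℕ | n ∈ Cl X p χ ζ ∧ Level q b x X n}.ncard : ℝ) - δ * Phi x / q * ((X : ℝ) / (2 * orderOf χ))| ≤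
            ε * ((X : ℝ) / orderOf χ)) ∧
    ∀ Λ : ℝ, 2 / Real.log (16 / 9) < Λ → ∀ ε : ℝ, 0 < ε → ∃ X₀ : ℕ, ∀ X : ℕ, X₀ ≤ X → ∀ (p : ℕ) [Fact p.Prime],
      (X : ℝ) ^ κ ≤ p → (p : ℝ) ≤ (X : ℝ) ^ (1 - κ) → ∀ (χ : MulChar (ZMod p) ℂ) (ζ : ℂ), ζ ^ orderOf χ = 1 →
        (orderOf χ : ℝ) ≤ (X : ℝ) ^ (η / 2) →
          |∑ n ∈ Cl X p χ ζ, (truncHeight n ⌊Λ * Real.log X⌋₊ : ℝ) -
            (δ * (2 / Real.log (16 / 9)) + (1 - δ) * Λ) * ((X : ℝ) / (2 * orderOf χ)) * Real.log X| ≤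
              ε * ((X : ℝ) / orderOf χ) * Real.log X := by
  classical
  obtain ⟨δ, hδ, h2, h3, hav⟩ := hgt_all
  refine ⟨δ, hδ.pos, hδ.le, h2, h3, fun κ hκ hκ1 => ?_⟩
  obtain ⟨K, η, hK, hη0, hη1, H⟩ := otr_chr hκ hκ1
  have hT : ∀ (X : ℕ), 1 ≤ X → ∀ (p : ℕ) [Fact p.Prime],
      (X : ℝ) ^ κ ≤ p → (p : ℝ) ≤ (X : ℝ) ^ (1 - κ) → ∀ (χ : MulChar (ZMod p) ℂ) (ζ : ℂ), ζ ^ orderOf χ = 1 →
      OTr X (wt p χ ζ) (1 / (orderOf χ : ℝ)) (K * (X : ℝ) ^ (1 - 2 * (η / 2))) := by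
    intro X hX p hp hp1 hp2 χ ζ hζ
    rw [show 1 - 2 * (η / 2) = 1 - η by ring]
    exact H X hX p hp1 hp2 χ ζ hζ
  have hord : ∀ (X p : ℕ) [Fact p.Prime] (χ : MulChar (ZMod p) ℂ), 1 ≤ X → (orderOf χ : ℝ) ≤ (X : ℝ) ^ (η / 2) →
      (X : ℝ) ^ (-(η / 2)) ≤ 1 / (orderOf χ : ℝ) := by
    intro X p hp χ hX hle
    have hX0 : (0 : ℝ) < X := by exact_mod_cast hX
    have hk : (0 : ℝ) < orderOf χ := by exact_mod_cast MulChar.orderOf_pos χ
    rw [Real.rpow_neg hX0.le, ← one_div]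
    exact one_div_le_one_div_of_le hk hle
  have e4 : ∀ (X : ℕ) (k : ℝ), 1 / k * (X : ℝ) / 2 = (X : ℝ) / (2 * k) := by
    intro X k
    rw [one_div_mul_eq_div, div_div, mul_comm k 2]
  refine ⟨η, hη0, ⟨K, fun φ hφ X hX p hp hp1 hp2 χ ζ hζ => ?_⟩, fun q b x hq ε hε => ?_, fun Λ hΛ ε hε => ?_⟩
  · have h4 : |∑ n ∈ (Icc 1 X).filter (fun n => n % 2 = 1), wt p χ ζ n *
        φ (Pool.Agent.Results.MP_2b866c_nt.PiatetskiShapiroHeights.height n) -
        1 / (orderOf χ : ℝ) * ∑ n ∈ (Icc 1 X).filter (fun n => n % 2 = 1),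
          φ (Pool.Agent.Results.MP_2b866c_nt.PiatetskiShapiroHeights.height n)| ≤ K * (X : ℝ) ^ (1 - η) :=
      H X hX p hp1 hp2 χ ζ hζ φ hφ
    rw [← sum_wt p χ ζ X (fun n => φ (Pool.Agent.Results.MP_2b866c_nt.PiatetskiShapiroHeights.height n))] at h4
    exact h4
  · obtain ⟨X0, hX0⟩ := otr_law hδ (show 0 < η / 2 by positivity) K hq b x hε
    refine ⟨X0 + 1, fun X hX p hp hp1 hp2 χ ζ hζ hle => ?_⟩
    have h4 := hX0 X (by omega) _ _ (hord X p χ (by omega) hle) (hT X (by omega) p hp1 hp2 χ ζ hζ)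
    have e1 : ∑ n ∈ (Icc 1 X).filter (fun n => n % 2 = 1), wt p χ ζ n *
        phL q b (bd x X) (Pool.Agent.Results.MP_2b866c_nt.PiatetskiShapiroHeights.height n) =
        ({n : ℕ | n ∈ Cl X p χ ζ ∧ Level q b x X n}.ncard : ℝ) := by
      rw [← sum_wt p χ ζ X (fun n => phL q b (bd x X)
        (Pool.Agent.Results.MP_2b866c_nt.PiatetskiShapiroHeights.height n))]
      have e2 : {n : ℕ | n ∈ Cl X p χ ζ ∧ Level q b x X n} =
          (((Cl X p χ ζ).filter (fun n => Level q b x X n) : Finset ℕ) : Set ℕ) := by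
        ext n; simp
      rw [e2, Set.ncard_coe_finset, ← Finset.sum_boole]
      apply sum_congr rfl
      intro n _
      unfold phL Level
      rw [← bound_bd]
      rfl
    have e3 : Pool.Agent.H499R2.ND.Phi x = Phi x := Pool.Agent.H499R2.ND.phi_cdf x
    rw [e1, e3, e4, one_div_mul_eq_div] at h4
    exact h4
  · have hl : 0 < Real.log (16 / 9) := Real.log_pos (by norm_num)
    obtain ⟨X0, hX0⟩ := otr_avg (lt_trans (by positivity) hΛ) (hav Λ hΛ) (show 0 < η / 2 by positivity) hK hε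
    refine ⟨X0 + 1, fun X hX p hp hp1 hp2 χ ζ hζ hle => ?_⟩
    have h4 := hX0 X (by omega) _ _ (hord X p χ (by omega) hle) (hT X (by omega) p hp1 hp2 χ ζ hζ)
    rw [e4, one_div_mul_eq_div] at h4
    rw [← sum_wt p χ ζ X
      (fun n => (Pool.Agent.Results.MP_2b866c_nt.TruncatedAverages.truncHeight n ⌊Λ * Real.log X⌋₊ : ℝ))] at h4
    exact h4

end Pool.Agent.Results.MP_2b866c_nt.HeightsInPowerResidueClasses
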