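import Pool.Agent.K3h31.CL.L

/-!
THE LEVELS OF THE HEIGHT. The odd integers `m ≤ x` of one fixed height `k`, uniformly for `k` within
`O(√(log x))` of the mean value: their number in every residue class, the runs of such integers, the law
of their first descent (in total variation) and the law of their maximum excursion.

Author: helper31. The argument is that of Pool/Agent/R468/RC (there for the total stopping time), carried
out for the number of odd terms, with the local limit laws of Pool/Agent/R468/MF.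
-/

set_option autoImplicit false

namespace Pool.Agent.Results.MP_2b866c_nt.LevelsOfTheHeight

open Filter Topology

/-- `C(m) = (3m+1)/2^e(m)`, `2^e(m)` the largest power of `2` dividing `3m+1` -/
def C (m : ℕ) : ℕ := (3 * m + 1) / 2 ^ padicValNat 2 (3 * m + 1)

/-- `h` is the height of `m`: the least `k ≥ 1` with `C^k(m) = 1` (so it is finite) -/
def IsHeight (m h : ℕ) : Prop := IsLeast {k : ℕ | 1 ≤ k ∧ C^[k] m = 1} h

/-- the `3x+1` function; the odd terms of the trajectory of an odd `m` under `T` are `m, C(m), C^2(m), ...` -/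
def T (n : ℕ) : ℕ := if n % 2 = 0 then n / 2 else (3 * n + 1) / 2

/-- the number of odd integers among `n, T(n), ..., T^(s-1)(n)` -/
def odds (s n : ℕ) : ℕ := ((Finset.range s).filter fun i => T^[i] n % 2 = 1).card

/-- `j` is the index of the first descent: the least `j ≥ 1` with `C^j(m) < m` -/
def IsDescentIndex (j m : ℕ) : Prop := 1 ≤ j ∧ C^[j] m < m ∧ ∀ i, 1 ≤ i → i < j → m ≤ C^[i] m

/-- the exponents `e(m), e(C(m)), ..., e(C^(j-1)(m))` -/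
def exps (j m : ℕ) : List ℕ := (List.range j).map fun i => padicValNat 2 (3 * C^[i] m + 1)

/-- `a` is a descent word: a word `a_1 ... a_j` of positive integers with `2^(a_1 + ... + a_j) > 3^j` and
with `2^(a_1 + ... + a_i) < 3^i` for `0 < i < j` -/
def IsDescentWord (a : List ℕ) : Prop := (∀ e ∈ a, 1 ≤ e) ∧ 3 ^ a.length < 2 ^ a.sum ∧
  ∀ i, 1 ≤ i → i < a.length → 2 ^ (a.take i).sum < 3 ^ i

/-- the probability that a random word `a_1 a_2 ...` (`a_1, a_2, ...` independent, `a` with probability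
`2^(-a)`) has its first descent word in `S`: the sum of `2^(-(a_1 + ... + a_j))` over the descent words
`a_1 ... a_j` in `S`, arranged by the value of the sum -/
noncomputable def P (S : Set (List ℕ)) : ℝ :=
  ∑' t : ℕ, ({a : List ℕ | a ∈ S ∧ a.sum = t ∧ IsDescentWord a}.ncard : ℝ) / 2 ^ t

/-- the number of the integers `1 ≤ m ≤ x` with `m ≡ r` modulo `2 q` such that
`m, m + 2, ..., m + 2 h` all have the height `k` (for odd `r` these `m` are odd) -/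
noncomputable def N (q r h : ℕ) (x : ℝ) (k : ℕ) : ℕ :=
  {m : ℕ | 1 ≤ m ∧ (m : ℝ) ≤ x ∧ m ≡ r [MOD 2 * q] ∧ ∀ i ≤ h, IsHeight (m + 2 * i) k}.ncard

/-- the number of the odd integers `1 ≤ m ≤ x` of height `k`, with `m ≡ r` modulo `Q`, whose trajectory
has a first descent, of some index `j`, with the word of exponents `e(m), ..., e(C^(j-1)(m))` in `S` -/
noncomputable def D (Q r : ℕ) (x : ℝ) (k : ℕ) (S : Set (List ℕ)) : ℕ :=
  {m : ℕ | 1 ≤ m ∧ (m : ℝ) ≤ x ∧ Odd m ∧ m ≡ r [MOD Q] ∧ (∃ j, IsDescentIndex j m ∧ exps j m ∈ S) ∧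
    IsHeight m k}.ncard

/-- the number of the odd integers `1 ≤ m ≤ x` of height `k`, with `m ≡ r` modulo `Q`, whose trajectory
under `T` does not exceed `l m` -/
noncomputable def E (Q r : ℕ) (x : ℝ) (k : ℕ) (l : ℝ) : ℕ :=
  {m : ℕ | 1 ≤ m ∧ (m : ℝ) ≤ x ∧ Odd m ∧ m ≡ r [MOD Q] ∧ (∀ i, ((T^[i] m : ℕ) : ℝ) ≤ l * m) ∧
    IsHeight m k}.ncard

/-- the proportion of the `c` with `3^(odds i c) < l 2^i` for `1 ≤ i ≤ J + 1` among the `2^J` odd
integers `0 < c < 2^(J+1)` -/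
noncomputable def prop (J : ℕ) (l : ℝ) : ℝ :=
  ({c : ℕ | c < 2 ^ (J + 1) ∧ Odd c ∧ ∀ i, 1 ≤ i → i ≤ J + 1 → (3 : ℝ) ^ odds i c < l * 2 ^ i}.ncard : ℝ) / 2 ^ J

/-- among the odd positive integers, those with the property `P` have the natural density `δ` -/
def HasOddDensity (P : ℕ → Prop) (δ : ℝ) : Prop :=
  Tendsto (fun M : ℕ => 2 / (M : ℝ) * ({m : ℕ | m ≤ M ∧ Odd m ∧ P m}.ncard : ℝ)) atTop (𝓝 δ)

/-- the constant `μ = 2 / log (16/9)` of the mean value -/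
noncomputable def μ : ℝ := 2 / Real.log (16 / 9)

/-- the constant `σ² = 2 (log 2)² / (log (4/3))³` of the variance -/
noncomputable def σ2 : ℝ := 2 * Real.log 2 ^ 2 / Real.log (4 / 3) ^ 3

/-- the value at `k` of the density of the normal distribution of mean `μ log x` and variance
`σ² log x` -/
noncomputable def g (x : ℝ) (k : ℕ) : ℝ :=
  Real.exp (-(((k : ℝ) - μ * Real.log x) ^ 2 / (2 * (σ2 * Real.log x)))) /
    Real.sqrt (2 * Real.pi * (σ2 * Real.log x))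

theorem odd_density_of {P : ℕ → Prop} {δ : ℝ}
    (h : Pool.Agent.H499R2.ND.Dn (fun m => m % 2 = 1 ∧ P m) (δ / 2)) : HasOddDensity P δ := by
  unfold HasOddDensity
  have h1 := h.const_mul 2
  rw [mul_div_cancel₀ δ (by norm_num : (2 : ℝ) ≠ 0)] at h1
  refine h1.congr fun M => ?_
  have e : {m : ℕ | 1 ≤ m ∧ m ≤ M ∧ m % 2 = 1 ∧ P m} = {m : ℕ | m ≤ M ∧ Odd m ∧ P m} := by
    ext m
    constructor
    · rintro ⟨g1, g2, g3, g4⟩
      exact ⟨g2, Nat.odd_iff.2 g3, g4⟩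
    · rintro ⟨g2, g3, g4⟩
      exact ⟨g3.pos, g2, Nat.odd_iff.1 g3, g4⟩
  unfold Pool.Agent.H499R2.ND.cnt
  rw [e]
  ring

theorem isHt_iff {m h : ℕ} : Pool.Agent.H499R2.ND.IsHt m h ↔ IsHeight m h := by
  constructor
  · rintro ⟨h1, h2, h3⟩
    refine ⟨⟨h1, h2⟩, fun j hj => ?_⟩
    by_contra hlt
    exact h3 j hj.1 (by omega) hj.2
  · rintro ⟨⟨h1, h2⟩, h3⟩
    refine ⟨h1, h2, fun j hj1 hj2 hj3 => ?_⟩
    have := h3 ⟨hj1, hj3⟩
    omega

theorem N_eq {q r : ℕ} (hr : Odd r) (h : ℕ) (x : ℝ) (k : ℕ) :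
    {m : ℕ | (m : ℝ) ≤ x ∧ m ≡ r [MOD 2 * q] ∧ ∀ i ≤ h, Pool.Agent.H499R2.ND.IsHt (m + 2 * i) k} =
      {m : ℕ | 1 ≤ m ∧ (m : ℝ) ≤ x ∧ m ≡ r [MOD 2 * q] ∧ ∀ i ≤ h, IsHeight (m + 2 * i) k} := by
  ext m
  rw [Set.mem_ofPred_eq, Set.mem_ofPred_eq]
  simp only [isHt_iff]
  constructor
  · rintro ⟨g1, g2, g3⟩
    have h1 := Pool.Agent.K3h31.CL.odd_of_mod (Nat.odd_iff.1 hr) g2
    exact ⟨by omega, g1, g2, g3⟩
  · rintro ⟨_, g1, g2, g3⟩
    exact ⟨g1, g2, g3⟩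

theorem D_eq (Q r : ℕ) (x : ℝ) (k : ℕ) (S : Set (List ℕ)) :
    {m : ℕ | 1 ≤ m ∧ (m : ℝ) ≤ x ∧ (m ≡ r [MOD Q] ∧ (m % 2 = 1 ∧ ∃ j, Pool.Agent.K3h31.CL.DI j m ∧
      Pool.Agent.K3h31.CL.ew j m ∈ S)) ∧ Pool.Agent.H499R2.ND.IsHt m k} =
    {m : ℕ | 1 ≤ m ∧ (m : ℝ) ≤ x ∧ Odd m ∧ m ≡ r [MOD Q] ∧ (∃ j, IsDescentIndex j m ∧ exps j m ∈ S) ∧
      IsHeight m k} := by
  ext m
  rw [Set.mem_ofPred_eq, Set.mem_ofPred_eq, isHt_iff]
  constructor
  · rintro ⟨g1, g2, ⟨g3, g4, g5⟩, g7⟩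
    exact ⟨g1, g2, Nat.odd_iff.2 g4, g3, g5, g7⟩
  · rintro ⟨g1, g2, g4, g3, g5, g7⟩
    exact ⟨g1, g2, ⟨g3, Nat.odd_iff.1 g4, g5⟩, g7⟩

theorem E_eq (Q r : ℕ) (x : ℝ) (k : ℕ) (l : ℝ) :
    {m : ℕ | 1 ≤ m ∧ (m : ℝ) ≤ x ∧ (m ≡ r [MOD Q] ∧ (m % 2 = 1 ∧
      ∀ i, ((Pool.Agent.H499R2.ND.Tn^[i] m : ℕ) : ℝ) ≤ l * m)) ∧ Pool.Agent.H499R2.ND.IsHt m k} =
    {m : ℕ | 1 ≤ m ∧ (m : ℝ) ≤ x ∧ Odd m ∧ m ≡ r [MOD Q] ∧ (∀ i, ((T^[i] m : ℕ) : ℝ) ≤ l * m) ∧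
      IsHeight m k} := by
  ext m
  rw [Set.mem_ofPred_eq, Set.mem_ofPred_eq, isHt_iff]
  constructor
  · rintro ⟨g1, g2, ⟨g3, g4, g5⟩, g7⟩
    exact ⟨g1, g2, Nat.odd_iff.2 g4, g3, g5, g7⟩
  · rintro ⟨g1, g2, g4, g3, g5, g7⟩
    exact ⟨g1, g2, ⟨g3, Nat.odd_iff.1 g4, g5⟩, g7⟩

theorem prop_eq (J : ℕ) (l : ℝ) : prop J l = Pool.Agent.K3h31.CL.rO J l := by
  classical
  unfold prop Pool.Agent.K3h31.CL.rO
  congr 2
  rw [← Set.ncard_coe_finset]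
  congr 1
  ext c
  rw [Finset.mem_coe, Finset.mem_filter, Finset.mem_range, Set.mem_ofPred_eq, Nat.odd_iff]
  unfold Pool.Agent.K3h31.CL.OA Pool.Agent.H499R2.ND.AK
  simp only [Pool.Agent.R468.RC.od_odn']
  exact Iff.rfl

/-- THE LEVELS OF THE HEIGHT. One has `P (all words) = 1`. There are `δ`, a function `Ψ` and a function
`κ` on `[1, ∞)` such that

* `0 < δ ≤ 1`, `δ` is the density of the odd integers of finite height among the odd integers, and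
  `δ = 1` iff all odd integers have finite height;
* `Ψ` is continuous, has period one, lies between `δ log 2` and `2 δ log 2`, and its mean is `δ`;
* (classes and runs) for all `q ≥ 1`, all odd `r`, all `h` and all `K` the number of the `m ≤ x` with
  `m ≡ r` modulo `2 q` for which `m, m + 2, ..., m + 2 h` all have the height `k` is
  `(1/q) (x/2) g(x, k) (Ψ (log_2 (3^k x)) + o(1))` as `x → ∞`, uniformly for the integers `k` with
  `|k - μ log x| ≤ K √(log x)`;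
* (first descent) for every odd `Q` and every `r` the number of the odd `m ≤ x` of height `k`, `m ≡ r`
  modulo `Q`, with a first descent `C^j(m) < m` and with `e(m), ..., e(C^(j-1)(m))` in `S` is
  `(1/Q) (x/2) g(x, k) (P(S) Ψ (log_2 (3^k x)) + o(1))`, uniformly for these `k` and for all sets `S` of
  words: on the levels the words of exponents up to the first descent have, in total variation, the law
  of the first descent words of sequences of independent geometric random variables;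
* (maximum excursion) for every `l ≥ 1`, every odd `Q` and every `r` the number of the odd `m ≤ x` of
  height `k`, `m ≡ r` modulo `Q`, with `T^i(m) ≤ l m` for all `i` is
  `(1/Q) (x/2) g(x, k) (κ(l) Ψ (log_2 (3^k x)) + o(1))`, uniformly for these `k`; here `κ(l)` is the
  limit of the proportions `prop J l`, and `1 - 2 / l ≤ κ(l) ≤ 1`. -/
theorem result : HasSum (fun t : ℕ =>
      ({a : List ℕ | a ∈ Set.univ ∧ a.sum = t ∧ IsDescentWord a}.ncard : ℝ) / 2 ^ t) 1 ∧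
    ∃ (δ : ℝ) (Ψ κ : ℝ → ℝ), 0 < δ ∧ δ ≤ 1 ∧
    (δ = 1 ↔ ∀ m : ℕ, Odd m → ∃ h : ℕ, IsHeight m h) ∧
    HasOddDensity (fun m => ∃ h : ℕ, IsHeight m h) δ ∧
    Continuous Ψ ∧ (∀ u : ℝ, Ψ (u + 1) = Ψ u) ∧
    (∀ u : ℝ, δ * Real.log 2 ≤ Ψ u ∧ Ψ u ≤ 2 * δ * Real.log 2) ∧
    (∫ u in (0 : ℝ)..1, Ψ u = δ) ∧
    (∀ (q r h : ℕ), 1 ≤ q → Odd r → ∀ K ε : ℝ, 0 < ε → ∃ X₀ : ℝ, ∀ x : ℝ, X₀ ≤ x → ∀ k : ℕ,
      |(k : ℝ) - μ * Real.log x| ≤ K * Real.sqrt (Real.log x) →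
      |(N q r h x k : ℝ) / (x / 2 * g x k) - 1 / q * Ψ (Real.logb 2 (3 ^ k * x))| ≤ ε) ∧
    (∀ (Q r : ℕ), Odd Q → ∀ K ε : ℝ, 0 < ε → ∃ X₀ : ℝ, ∀ x : ℝ, X₀ ≤ x → ∀ k : ℕ,
      |(k : ℝ) - μ * Real.log x| ≤ K * Real.sqrt (Real.log x) → ∀ S : Set (List ℕ),
      |(D Q r x k S : ℝ) / (x / 2 * g x k) - P S / Q * Ψ (Real.logb 2 (3 ^ k * x))| ≤ ε) ∧
    (∀ l : ℝ, 1 ≤ l → 1 - 2 / l ≤ κ l ∧ κ l ≤ 1 ∧ Tendsto (fun J => prop J l) atTop (𝓝 (κ l)) ∧
      ∀ (Q r : ℕ), Odd Q → ∀ K ε : ℝ, 0 < ε → ∃ X₀ : ℝ, ∀ x : ℝ, X₀ ≤ x → ∀ k : ℕ,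
      |(k : ℝ) - μ * Real.log x| ≤ K * Real.sqrt (Real.log x) →
      |(E Q r x k l : ℝ) / (x / 2 * g x k) - κ l / Q * Ψ (Real.logb 2 (3 ^ k * x))| ≤ ε) := by
  refine ⟨Pool.Agent.K3h31.CL.zd_one, ?_⟩
  obtain ⟨δ, Ψ, κ, h0, h1, h2, h3, h4, h5, h6, h7, h8, h9, h10⟩ := Pool.Agent.K3h31.CL.main_C
  have hodd : ∀ m : ℕ, Odd m → (Pool.Agent.H499R2.ND.Bas m ↔ ∃ h : ℕ, IsHeight m h) := fun m hm => by
    rw [Pool.Agent.H499R2.ND.ht_iff hm]
    exact exists_congr fun h => isHt_iff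
  refine ⟨δ, Ψ, κ, h0, h1, ?_, ?_, h4, h5, h6, h7, ?_, ?_, ?_⟩
  · rw [h2, Pool.Agent.H499R2.ND.bas_all_iff]
    exact forall_congr' fun m => forall_congr' fun _ => exists_congr fun h => isHt_iff
  · apply odd_density_of
    have hB : Pool.Agent.H499R2.ND.Dn (fun m => m % 2 = 1 ∧ Pool.Agent.H499R2.ND.Bas m) (δ / 2) := by
      have := Pool.Agent.H499R2.ND.inv_prog Pool.Agent.H499R2.ND.Bas_inv h3 (q := 2) (by norm_num) 1
      exact_mod_cast this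
    exact Pool.Agent.H499R2.LT.Dn_iff (fun n _ => and_congr_right fun hn => hodd n (Nat.odd_iff.2 hn)) hB
  · intro q r h hq hr K ε hε
    obtain ⟨X₀, hX⟩ := h8 q r h hq (Nat.odd_iff.1 hr) K ε hε
    refine ⟨X₀, fun x hx k hk => ?_⟩
    have g1 := hX x hx k hk
    rw [N_eq hr] at g1
    exact g1
  · intro Q r hQ K ε hε
    obtain ⟨X₀, hX⟩ := h9 Q r hQ K ε hε
    refine ⟨X₀, fun x hx k hk S => ?_⟩
    have g1 := hX x hx k hk S
    rw [D_eq] at g1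
    exact g1
  · intro l hl
    obtain ⟨g1, g2, g3, g4⟩ := h10 l hl
    refine ⟨g1, g2, ?_, fun Q r hQ K ε hε => ?_⟩
    · simp only [prop_eq]
      exact g3
    · obtain ⟨X₀, hX⟩ := g4 Q r hQ K ε hε
      refine ⟨X₀, fun x hx k hk => ?_⟩
      have g5 := hX x hx k hk
      rw [E_eq] at g5
      exact g5

end Pool.Agent.Results.MP_2b866c_nt.LevelsOfTheHeight
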